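import Pool.Agent.Q266.SPatE

/-!
# Every superpattern of `T₂ ⊕ T₂` is spectrally arbitrary
-/

namespace Pool.Agent.Results.MP_b6277e_co.EverySuperpattern

open Polynomial Matrix Topology Pool.Agent.Q266.SPat

/-- A sign pattern of order `n` is spectrally arbitrary if every monic real polynomial of degree
`n` is the characteristic polynomial of a real matrix with this sign pattern. -/
def SpectrallyArbitrary {n : ℕ} (B : Matrix (Fin n) (Fin n) SignType) : Prop :=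
  ∀ p : ℝ[X], p.Monic → p.natDegree = n →
    ∃ A : Matrix (Fin n) (Fin n) ℝ, (∀ i j, SignType.sign (A i j) = B i j) ∧ A.charpoly = p

/-- The sign pattern `T₂ ⊕ T₂`. -/
def T2T2 : Matrix (Fin 4) (Fin 4) SignType :=
  !![1, 1, 0, 0; -1, -1, 0, 0; 0, 0, 1, 1; 0, 0, -1, -1]

/-- `B` is a superpattern of `A`. -/
def IsSuperpattern {n : ℕ} (B A : Matrix (Fin n) (Fin n) SignType) : Prop :=
  ∀ i j, A i j ≠ 0 → B i j = A i j

theorem sign_coe (x : SignType) : SignType.sign ((x : SignType) : ℝ) = x := by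
  cases x <;> simp

/-- The sign conditions on the two diagonal blocks. -/
theorem sign_Bm (l i : Fin 2) (K s q : ℝ) (hK : 0 < K) (h1 : 0 < K - s) (h2 : 0 < K + s)
    (h3 : 0 < q + (K - s) * K) (h4 : 0 < q + K * (K + s)) :
    SignType.sign (Bm l i K s q 0 0) = 1 ∧ SignType.sign (Bm l i K s q 0 1) = 1 ∧
    SignType.sign (Bm l i K s q 1 0) = -1 ∧ SignType.sign (Bm l i K s q 1 1) = -1 := by
  have n1 : -K < 0 := by linarith
  have n2 : -(q + (K - s) * K) < 0 := by linarith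
  have n3 : -(q + K * (K + s)) < 0 := by linarith
  have n4 : -(K + s) < 0 := by linarith
  have one : SignType.sign (1 : ℝ) = 1 := sign_pos one_pos
  have mone : SignType.sign (-1 : ℝ) = -1 := sign_neg (by norm_num)
  fin_cases l <;> fin_cases i
  · refine ⟨?_, ?_, ?_, ?_⟩
    · simpa [Bm] using sign_pos h1
    · simp [Bm, one]
    · simpa [Bm] using sign_neg n2
    · simpa [Bm] using sign_neg n1
  · refine ⟨?_, ?_, ?_, ?_⟩
    · simpa [Bm] using sign_pos h1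
    · simp [Bm, one]
    · simpa [Bm] using sign_neg n2
    · simpa [Bm] using sign_neg n1
  · refine ⟨?_, ?_, ?_, ?_⟩
    · simpa [Bm] using sign_pos h1
    · simpa [Bm] using sign_pos h3
    · simp [Bm]
    · simpa [Bm] using sign_neg n1
  · refine ⟨?_, ?_, ?_, ?_⟩
    · simpa [Bm] using sign_pos hK
    · simp [Bm, one]
    · simpa [Bm] using sign_neg n3
    · simpa [Bm] using sign_neg n4

/-- The signs of an off-diagonal block. -/
theorem sign_Eb (i j : Fin 2) (x t : ℝ) (S : Matrix (Fin 2) (Fin 2) SignType) (ht : 0 < t)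
    (hx : SignType.sign x = S i j) (a b : Fin 2) :
    SignType.sign (Eb i j x t (fun a b => ((S a b : SignType) : ℝ)) a b) = S a b := by
  unfold Eb
  split_ifs with h
  · rw [h.1, h.2, hx]
  · rw [sign_mul, sign_pos ht, one_mul, sign_coe]

/-- The four signs of the diagonal blocks of a superpattern. -/
theorem diag_signs (B : Matrix (Fin 4) (Fin 4) SignType) (hB : IsSuperpattern B T2T2) :
    (B 0 0 = 1 ∧ B 0 1 = 1 ∧ B 1 0 = -1 ∧ B 1 1 = -1) ∧
    (B 2 2 = 1 ∧ B 2 3 = 1 ∧ B 3 2 = -1 ∧ B 3 3 = -1) := by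
  refine ⟨⟨?_, ?_, ?_, ?_⟩, ?_, ?_, ?_, ?_⟩
  · rw [hB 0 0 (by decide)]; rfl
  · rw [hB 0 1 (by decide)]; rfl
  · rw [hB 1 0 (by decide)]; rfl
  · rw [hB 1 1 (by decide)]; rfl
  · rw [hB 2 2 (by decide)]; rfl
  · rw [hB 2 3 (by decide)]; rfl
  · rw [hB 3 2 (by decide)]; rfl
  · rw [hB 3 3 (by decide)]; rfl

/-- Signs of a block matrix. -/
theorem sign_M4 (B : Matrix (Fin 4) (Fin 4) SignType) (D X Y D' : Matrix (Fin 2) (Fin 2) ℝ)
    (hB : IsSuperpattern B T2T2)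
    (hD : SignType.sign (D 0 0) = 1 ∧ SignType.sign (D 0 1) = 1 ∧
      SignType.sign (D 1 0) = -1 ∧ SignType.sign (D 1 1) = -1)
    (hD' : SignType.sign (D' 0 0) = 1 ∧ SignType.sign (D' 0 1) = 1 ∧
      SignType.sign (D' 1 0) = -1 ∧ SignType.sign (D' 1 1) = -1)
    (hX : ∀ a b, SignType.sign (X a b) = (!![B 0 2, B 0 3; B 1 2, B 1 3] : Matrix _ _ _) a b)
    (hY : ∀ a b, SignType.sign (Y a b) = (!![B 2 0, B 2 1; B 3 0, B 3 1] : Matrix _ _ _) a b)
    (a b : Fin 4) : SignType.sign (M4 D X Y D' a b) = B a b := by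
  obtain ⟨⟨d1, d2, d3, d4⟩, d5, d6, d7, d8⟩ := diag_signs B hB
  obtain ⟨e1, e2, e3, e4⟩ := hD
  obtain ⟨e5, e6, e7, e8⟩ := hD'
  fin_cases a <;> fin_cases b
  · exact e1.trans d1.symm
  · exact e2.trans d2.symm
  · exact hX 0 0
  · exact hX 0 1
  · exact e3.trans d3.symm
  · exact e4.trans d4.symm
  · exact hX 1 0
  · exact hX 1 1
  · exact hY 0 0
  · exact hY 0 1
  · exact e5.trans d5.symm
  · exact e6.trans d6.symm
  · exact hY 1 0
  · exact hY 1 1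
  · exact e7.trans d7.symm
  · exact e8.trans d8.symm

/-- A monic quartic in terms of its coefficients. -/
theorem as_quartic (p : ℝ[X]) (hp : p.Monic) (hd : p.natDegree = 4) :
    p = X ^ 4 + C (p.coeff 3) * X ^ 3 + C (p.coeff 2) * X ^ 2 + C (p.coeff 1) * X
      + C (p.coeff 0) := by
  have h := hp.as_sum
  rw [hd] at h
  simp only [Finset.sum_range_succ, Finset.range_zero, Finset.sum_empty, zero_add, pow_zero,
    mul_one, pow_one] at h
  rw [h]
  simp only [coeff_add, coeff_X_pow, coeff_C_mul, coeff_C, coeff_X]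
  norm_num
  ring

/-- The block triangular case. -/
theorem triangular (p : ℝ[X]) (hp : p.Monic) (hd : p.natDegree = 4)
    (X' Y' : Matrix (Fin 2) (Fin 2) ℝ) (h : X' = 0 ∨ Y' = 0) :
    ∃ D D' : Matrix (Fin 2) (Fin 2) ℝ,
      (SignType.sign (D 0 0) = 1 ∧ SignType.sign (D 0 1) = 1 ∧
      SignType.sign (D 1 0) = -1 ∧ SignType.sign (D 1 1) = -1) ∧
      (SignType.sign (D' 0 0) = 1 ∧ SignType.sign (D' 0 1) = 1 ∧
      SignType.sign (D' 1 0) = -1 ∧ SignType.sign (D' 1 1) = -1) ∧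
      (M4 D X' Y' D').charpoly = p := by
  obtain ⟨s₁, q₁, s₂, q₂, hf⟩ := exists_factor p hp hd
  obtain ⟨K, hK⟩ : ∃ K : ℝ, K = 1 + |s₁| + |s₂| + |q₁| + |q₂| := ⟨_, rfl⟩
  have a1 := abs_nonneg s₁
  have a2 := abs_nonneg s₂
  have a3 := abs_nonneg q₁
  have a4 := abs_nonneg q₂
  have K1 : 1 ≤ K := by linarith
  have fin : ∀ s q : ℝ, |s| + |q| + 1 ≤ K →
      0 < K - s ∧ 0 < K + s ∧ 0 < q + (K - s) * K ∧ 0 < q + K * (K + s) := by
    intro s q h
    have b1 := neg_abs_le s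
    have b2 := le_abs_self s
    have b3 := neg_abs_le q
    have b4 := abs_nonneg q
    have c1 : |q| + 1 ≤ K - s := by linarith
    have c2 : |q| + 1 ≤ K + s := by linarith
    refine ⟨by linarith, by linarith, ?_, ?_⟩
    · have : (|q| + 1) * 1 ≤ (K - s) * K := mul_le_mul c1 K1 (by norm_num) (by linarith)
      linarith
    · have : 1 * (|q| + 1) ≤ K * (K + s) := mul_le_mul K1 c2 (by linarith) (by linarith)
      linarith
  obtain ⟨f1, f2, f3, f4⟩ := fin s₁ q₁ (by linarith)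
  obtain ⟨g1, g2, g3, g4⟩ := fin s₂ q₂ (by linarith)
  refine ⟨Bm 0 0 K s₁ q₁, Bm 0 0 K s₂ q₂,
    sign_Bm 0 0 K s₁ q₁ (by linarith) f1 f2 f3 f4,
    sign_Bm 0 0 K s₂ q₂ (by linarith) g1 g2 g3 g4, ?_⟩
  have e3 : k3 (M4 (Bm 0 0 K s₁ q₁) X' Y' (Bm 0 0 K s₂ q₂)) = s₁ + s₂ := by
    rcases h with rfl | rfl <;> (simp [k3, M4, Bm]; ring)
  have e2 : k2 (M4 (Bm 0 0 K s₁ q₁) X' Y' (Bm 0 0 K s₂ q₂)) = q₁ + q₂ + s₁ * s₂ := by
    rcases h with rfl | rfl <;> (simp [k2, m2, M4, Bm]; ring)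
  have e1 : k1 (M4 (Bm 0 0 K s₁ q₁) X' Y' (Bm 0 0 K s₂ q₂)) = s₁ * q₂ + s₂ * q₁ := by
    rcases h with rfl | rfl <;> (simp [k1, m3, M4, Bm]; ring)
  have e0 : k0 (M4 (Bm 0 0 K s₁ q₁) X' Y' (Bm 0 0 K s₂ q₂)) = q₁ * q₂ := by
    rcases h with rfl | rfl <;> (simp [k0, mm, M4, Bm]; ring)
  rw [charpoly_eq, e3, e2, e1, e0, hf]
  simp only [C_add, C_mul]
  ring

/-- **Every superpattern of `T₂ ⊕ T₂` is spectrally arbitrary.** -/
theorem result (B : Matrix (Fin 4) (Fin 4) SignType) (hB : IsSuperpattern B T2T2) :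
    SpectrallyArbitrary B := by
  intro p hp hd
  obtain ⟨S, hS⟩ : ∃ S : Matrix (Fin 2) (Fin 2) SignType, S = !![B 0 2, B 0 3; B 1 2, B 1 3] :=
    ⟨_, rfl⟩
  obtain ⟨S', hS'⟩ : ∃ S : Matrix (Fin 2) (Fin 2) SignType, S = !![B 2 0, B 2 1; B 3 0, B 3 1] :=
    ⟨_, rfl⟩
  by_cases hSS : S = 0 ∨ S' = 0
  · obtain ⟨D, D', hD, hD', hc⟩ := triangular p hp hd
      (fun a b => ((S a b : SignType) : ℝ)) (fun a b => ((S' a b : SignType) : ℝ)) (by
        rcases hSS with h | h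
        · left; funext a b; simp [h]
        · right; funext a b; simp [h])
    refine ⟨_, ?_, hc⟩
    intro a b
    refine sign_M4 B _ _ _ _ hB hD hD' ?_ ?_ a b
    · intro a b; rw [sign_coe, hS]
    · intro a b; rw [sign_coe, hS']
  · push Not at hSS
    obtain ⟨hS0, hS0'⟩ := hSS
    have ex : ∀ T : Matrix (Fin 2) (Fin 2) SignType, T ≠ 0 → ∃ i j, T i j ≠ 0 := by
      intro T hT
      by_contra hcon
      push Not at hcon
      exact hT (by funext a b; exact hcon a b)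
    obtain ⟨i, j, hij⟩ := ex S hS0
    obtain ⟨k, l, hkl⟩ := ex S' hS0'
    obtain ⟨K, hK1, hK⟩ := exists_pencil (p.coeff 3) (p.coeff 2) (p.coeff 1) (p.coeff 0)
    have hsq : ∀ x : SignType, x ≠ 0 → (((x : SignType) : ℝ) = 1 ∨ ((x : SignType) : ℝ) = -1) := by
      intro x hx
      cases x
      · exact absurd rfl hx
      · right; simp
      · left; simp
    obtain ⟨α, hα⟩ : ∃ α : ℝ, α = ((S i j : SignType) : ℝ) := ⟨_, rfl⟩
    obtain ⟨β, hβ⟩ : ∃ β : ℝ, β = ((S' k l : SignType) : ℝ) := ⟨_, rfl⟩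
    have hα1 : α = 1 ∨ α = -1 := by rw [hα]; exact hsq _ hij
    have hβ1 : β = 1 ∨ β = -1 := by rw [hβ]; exact hsq _ hkl
    obtain ⟨η, s₁, q₁, s₂, q₂, hη, hres, ⟨f1, f2, f3, f4⟩, ⟨g1, g2, g3, g4⟩, e3, e2, e1, e0⟩ :=
      hK (u1 l i) (u0 l i K) (u1 j k) (u0 j k K) (adm l i K) (adm j k K) (α * β) (by
        rcases hα1 with h | h <;> rcases hβ1 with h' | h' <;> rw [h, h'] <;> norm_num)
    have hα2 : α * α = 1 := by rcases hα1 with h | h <;> rw [h] <;> norm_num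
    have hβ2 : β * β = 1 := by rcases hβ1 with h | h <;> rw [h] <;> norm_num
    obtain ⟨y, hy⟩ : ∃ y : ℝ, y = β * (α * β * η) := ⟨_, rfl⟩
    have hxy : α * y = η := by
      rw [hy]
      linear_combination (β * β * η) * hα2 + η * hβ2
    have hsx : SignType.sign α = S i j := by rw [hα, sign_coe]
    have hsy : SignType.sign y = S' k l := by
      rw [hy, sign_mul, sign_pos hη, mul_one, hβ, sign_coe]
    obtain ⟨N, hN⟩ : ∃ N : Matrix (Fin 2) (Fin 2) ℝ, N = fun a b => ((S a b : SignType) : ℝ) :=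
      ⟨_, rfl⟩
    obtain ⟨N', hN'⟩ : ∃ N : Matrix (Fin 2) (Fin 2) ℝ, N = fun a b => ((S' a b : SignType) : ℝ) :=
      ⟨_, rfl⟩
    have hU : {v : ℝ × ℝ × ℝ × ℝ × ℝ | (0 < K - v.2.1 ∧ 0 < K + v.2.1 ∧
        0 < v.2.2.1 + (K - v.2.1) * K ∧ 0 < v.2.2.1 + K * (K + v.2.1)) ∧
        (0 < K - v.2.2.2.1 ∧ 0 < K + v.2.2.2.1 ∧
        0 < v.2.2.2.2 + (K - v.2.2.2.1) * K ∧ 0 < v.2.2.2.2 + K * (K + v.2.2.2.1))}
        ∈ 𝓝 ((0, s₁, q₁, s₂, q₂) : ℝ × ℝ × ℝ × ℝ × ℝ) := by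
      apply IsOpen.mem_nhds
      · simp only [Set.ofPred_and]
        repeat' apply IsOpen.inter
        all_goals (apply isOpen_lt <;> fun_prop)
      · exact ⟨⟨f1, f2, f3, f4⟩, g1, g2, g3, g4⟩
    obtain ⟨v, ⟨⟨a1, a2, a3, a4⟩, b1, b2, b3, b4⟩, hv0, hv⟩ :=
      exists_param i j k l K α y N N' s₁ q₁ s₂ q₂ hres _ hU
    rw [Fm_zero, hxy, e3, e2, e1, e0] at hv
    have v3 := congrArg (fun z => z.1) hv
    have v2 := congrArg (fun z => z.2.1) hv
    have v1 := congrArg (fun z => z.2.2.1) hv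
    have v0 := congrArg (fun z => z.2.2.2) hv
    simp only [Fm] at v3 v2 v1 v0
    refine ⟨Fam i j k l K α y N N' v.1 v.2.1 v.2.2.1 v.2.2.2.1 v.2.2.2.2, ?_, ?_⟩
    · intro a b
      refine sign_M4 B _ _ _ _ hB (sign_Bm l i K _ _ (by linarith) a1 a2 a3 a4)
        (sign_Bm j k K _ _ (by linarith) b1 b2 b3 b4) ?_ ?_ a b
      · intro a b
        rw [hN, sign_Eb i j α v.1 S hv0 hsx a b, hS]
      · intro a b
        rw [hN', sign_Eb k l y v.1 S' hv0 hsy a b, hS']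
    · rw [charpoly_eq, v3, v2, v1, v0]
      exact (as_quartic p hp hd).symm

end Pool.Agent.Results.MP_b6277e_co.EverySuperpattern
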